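import Pool.Agent.FHQ.StmtsG

/-!
# FHQ, row CHD: the colourful property
-/

set_option autoImplicit false

noncomputable section

namespace Pool.Agent.FHQ.H53

open Pool.Agent.FHQ

theorem chd (hchs : ChsStmt) : ChdStmt := by
  intro d
  induction d with
  | zero =>
    intro n k S _
    refine ⟨k, 0, ?_⟩
    intro p _ K _ A _ b h
    refine ⟨0, id, Function.injective_id, Fin.elim0, fun i => ?_⟩
    obtain ⟨x, hx⟩ := h fun _ => i
    have e : x = Fin.elim0 := Subsingleton.elim _ _
    have h0 := hx 0
    rw [e] at h0
    exact h0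
  | succ d ih =>
    intro n k S hS
    exact hchs d (fun n k S hS => ih n k S hS) n k S hS

end Pool.Agent.FHQ.H53
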