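import Pool.Agent.FHQ.StmtsT

/-!
# FHQ, row LIV: definable sets depend only on `E`
-/

set_option autoImplicit false

noncomputable section

namespace Pool.Agent.FHQ.H53

open Pool.Agent.FHQ

theorem liv : LivStmt := by
  intro n S hS
  induction hS with
  | eq P =>
    intro p K _ A A' _ x
    exact Iff.rfl
  | rv P Q =>
    intro p K _ A A' h x
    exact h _ _
  | not _ ih =>
    intro p K _ A A' h x
    exact not_congr (ih p K A A' h x)
  | and _ _ ih1 ih2 =>
    intro p K _ A A' h x
    exact and_congr (ih1 p K A A' h x) (ih2 p K A A' h x)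
  | ex _ ih =>
    intro p K _ A A' h x
    exact exists_congr fun a => ih p K A A' h (Fin.cons a x)

end Pool.Agent.FHQ.H53
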