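import Pool.Agent.FHQ.StmtsP

/-!
# FHQ, row PDC: Boolean operations for `PasD`
-/

set_option autoImplicit false

open scoped BigOperators

noncomputable section

namespace Pool.Agent.FHQ.H53

open Pool.Agent.FHQ

/-- restriction of the variables along a map -/
theorem ubr (hubs : UbsStmt) {r s : ℕ} {C : Cond r} (hC : UB r C) (e : Fin r → Fin s) :
    UB s (fun p x g => C p (fun i => x (e i)) (fun i => g (e i))) := by
  have h := hubs r s C hC (fun i => MvPolynomial.X (e i))
    (fun i j => if j = e i then 1 else 0) (fun _ => 0)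
  have e1 : (fun (p : ℕ) (x : Fin s → ZMod p) (g : Fin s → ℤ) =>
      C p (fun i => MvPolynomial.aeval x (MvPolynomial.X (e i) : MvPolynomial (Fin s) ℤ))
        (fun i => ∑ j, (if j = e i then (1 : ℤ) else 0) * g j + 0)) =
      fun p x g => C p (fun i => x (e i)) (fun i => g (e i)) := by
    funext p x g
    have h1 : (fun i => MvPolynomial.aeval x (MvPolynomial.X (e i) : MvPolynomial (Fin s) ℤ)) =
        fun i => x (e i) := by
      funext i
      exact MvPolynomial.aeval_X x (e i)
    have h2 : (fun i => ∑ j, (if j = e i then (1 : ℤ) else 0) * g j + 0) =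
        fun i => g (e i) := by
      funext i
      rw [add_zero, Finset.sum_eq_single (e i)]
      · rw [if_pos rfl, one_mul]
      · intro j _ hj
        rw [if_neg hj, zero_mul]
      · intro hj
        exact absurd (Finset.mem_univ _) hj
    rw [h1, h2]
  rw [e1] at h
  exact h

theorem pdc (hubs : UbsStmt) (hubo : UboStmt) : PdcStmt := by
  intro n S S' hS hS'
  obtain ⟨p0, r, f, C, hC, h⟩ := hS
  obtain ⟨p0', r', f', C', hC', h'⟩ := hS'
  have h1 := ubr hubs hC (Fin.castAdd r')
  have h2 := ubr hubs hC' (Fin.natAdd r)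
  obtain ⟨ho, ha, -, -, -⟩ := hubo (r + r') _ _ h1 h2
  obtain ⟨-, -, hn, -, -⟩ := hubo r C C hC hC
  have key : ∀ (p : ℕ) [Fact p.Prime] (K : Type) [Field K] (A : AcF p K), max p0 p0' ≤ p →
      ∀ x : Fin n → K,
      (S p K A x ↔ C p (fun i => A.ac (MvPolynomial.aeval x (Fin.append f f' (Fin.castAdd r' i))))
        (fun i => A.v (MvPolynomial.aeval x (Fin.append f f' (Fin.castAdd r' i))))) ∧
      (S' p K A x ↔ C' p (fun i => A.ac (MvPolynomial.aeval x (Fin.append f f' (Fin.natAdd r i))))
        (fun i => A.v (MvPolynomial.aeval x (Fin.append f f' (Fin.natAdd r i))))) := by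
    intro p _ K _ A hp x
    simp only [Fin.append_left, Fin.append_right]
    exact ⟨h p K A ((le_max_left _ _).trans hp) x, h' p K A ((le_max_right _ _).trans hp) x⟩
  refine ⟨⟨max p0 p0', r + r', Fin.append f f', _, ho, ?_⟩,
    ⟨max p0 p0', r + r', Fin.append f f', _, ha, ?_⟩, ⟨p0, r, f, _, hn, ?_⟩⟩
  · intro p _ K _ A hp x
    exact or_congr (key p K A hp x).1 (key p K A hp x).2
  · intro p _ K _ A hp x
    exact and_congr (key p K A hp x).1 (key p K A hp x).2
  · intro p _ K _ A hp x
    exact not_congr (h p K A hp x)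

end Pool.Agent.FHQ.H53
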